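import Pool.Agent.Lib.MP_7fcd00_lc.Tower

set_option autoImplicit false

/-!
# Approximate colouring of Abelian Cayley graphs: all large numbers of colours, ratio up to 15/13

For every chain `c₀ = 12`, `c_{i+1} ≥ 2 c_i`, with `N₀ = 13`, `N_{i+1} = ⌈N_i c_{i+1} / c_i⌉`, an
explicit reduction of 3SAT to the problem `Gap(c_s, N_s)`. For `c_i = 13 · 2^i - 1` one has
`N_i = 15 · 2^i - 2`. The definitions are in `Pool/Agent/Lib/MP_7fcd00_lc/` (`Defs.lean`, `lex` in
`Circ.lean`, `TG`, `TS`, `TN`, `last`, `Chain`, `odds` in `Tower.lean`).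
-/

namespace Pool.Agent.Results.MP_7fcd00_lc.CircularTower

open Pool.Agent.MP7fcd00TC

/-- The Cayley graph of `TS φ L` has chromatic number `≤ c_s` if the 3-CNF formula `φ`
(`n` variables, `k` clauses) is satisfiable and `≥ N_s` otherwise; each membership in the
connection set depends on at most one literal of `φ`. -/
theorem result :
    (∀ (L : List ℕ) (_ : Chain L) (n k : ℕ),
      Nat.card (TG n k L) = 2160 * (4 * k + 6 * n + 1) ^ 3 * L.prod ∧
      (∀ φ : CNF n k, (0 : TG n k L) ∉ TS φ L ∧ (∀ g ∈ TS φ L, -g ∈ TS φ L) ∧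
        (∀ x y, (SimpleGraph.addCayley (TS φ L)).Adj x y ↔ x - y ∈ TS φ L) ∧
        (Sat φ → (SimpleGraph.addCayley (TS φ L)).chromaticNumber ≤ last L) ∧
        (¬ Sat φ → TN L ≤ (SimpleGraph.addCayley (TS φ L)).chromaticNumber)) ∧
      (∀ g : TG n k L, ∃ P : Finset (Fin k × Fin 3), P.card ≤ 1 ∧
        ∀ φ φ' : CNF n k, (∀ p ∈ P, φ p.1 p.2 = φ' p.1 p.2) → (g ∈ TS φ L ↔ g ∈ TS φ' L))) ∧
    ∀ s, Chain (odds s) ∧ last (odds s) = 13 * 2 ^ s - 1 ∧ TN (odds s) = 15 * 2 ^ s - 2 := by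
  refine ⟨fun L hL n k => ⟨tg_card n k L, fun φ => ⟨ts_zero φ hL, ts_symm φ hL, ts_adj φ hL,
    fun h => (ts_up φ h hL).chromaticNumber_le, fun h => ?_⟩, ts_local n k L⟩,
    fun s => ⟨odds_chain s, odds_last s, odds_TN s⟩⟩
  by_contra hcon
  rw [not_le] at hcon
  obtain ⟨M, hM⟩ := ENat.ne_top_iff_exists.1 (ne_top_of_lt hcon)
  have hcol : (SimpleGraph.addCayley (TS φ L)).Colorable M :=
    SimpleGraph.chromaticNumber_le_iff_colorable.1 (by rw [← hM])
  have h1 := ts_low φ h hL M hcol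
  rw [← hM] at hcon
  have h2 : M < TN L := by exact_mod_cast hcon
  omega

end Pool.Agent.Results.MP_7fcd00_lc.CircularTower
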