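import Mathlib

set_option autoImplicit false

namespace Pool.Agent.Results.MP_7fcd00_lc.ThreeColour

open Finset

lemma exists_rep (y : UnitAddCircle) : ∃ r : ℝ, (r : UnitAddCircle) = y ∧ 0 ≤ r ∧ r < 1 ∧
    ‖y‖ = min r (1 - r) := by
  obtain ⟨z, rfl⟩ := QuotientAddGroup.mk_surjective y
  have h1 : ((Int.fract z : ℝ) : UnitAddCircle) = (z : UnitAddCircle) := by
    have : ((z - Int.fract z : ℝ) : UnitAddCircle) = 0 := by
      rw [AddCircle.coe_eq_zero_iff]
      exact ⟨⌊z⌋, by simp [Int.self_sub_fract]⟩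
    rw [AddCircle.coe_sub, sub_eq_zero] at this
    exact this.symm
  refine ⟨Int.fract z, h1, Int.fract_nonneg z, Int.fract_lt_one z, ?_⟩
  change ‖(z : UnitAddCircle)‖ = _
  rw [UnitAddCircle.norm_eq, abs_sub_round_eq_min]

lemma norm_ge {δ ρ : ℝ} (hδ : 0 < δ) (h1 : δ ≤ ρ) (h2 : ρ ≤ 1 - δ) :
    δ ≤ ‖(ρ : UnitAddCircle)‖ := by
  rw [UnitAddCircle.norm_eq, abs_sub_round_eq_min]
  have : Int.fract ρ = ρ := Int.fract_eq_self.2 ⟨by linarith, by linarith⟩
  rw [this]
  exact le_min h1 (by linarith)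

lemma int_of_coe_eq {a b : ℝ} (h : (a : UnitAddCircle) = (b : UnitAddCircle)) :
    ∃ m : ℤ, a - b = m := by
  have : ((a - b : ℝ) : UnitAddCircle) = 0 := by
    rw [AddCircle.coe_sub, h, sub_self]
  rw [AddCircle.coe_eq_zero_iff] at this
  obtain ⟨m, hm⟩ := this
  exact ⟨m, by simpa using hm.symm⟩

lemma coe_int (m : ℤ) : ((m : ℝ) : UnitAddCircle) = 0 := by
  rw [AddCircle.coe_eq_zero_iff]
  exact ⟨m, by simp⟩

variable {G : Type*} [AddCommGroup G]

/-- admissible pairs `(n, F)`: `F` is a real lift of `x ↦ c (x + n) - c x` commuting with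
the lifts `h s`. -/
def Adm (c : G → UnitAddCircle) (S : Set G) (h : G → G → ℝ) (n : G) (F : G → ℝ) : Prop :=
  (∀ x, ((F x : ℝ) : UnitAddCircle) = c (x + n) - c x) ∧
    ∀ s ∈ S, ∀ x, F x + h s (x + n) = h s x + F (x + s)

lemma adm_zero (c : G → UnitAddCircle) (S : Set G) (h : G → G → ℝ) :
    Adm c S h 0 (fun _ => 0) := by
  refine ⟨fun x => by simp, fun s _ x => by simp⟩

lemma adm_add {c : G → UnitAddCircle} {S : Set G} {h : G → G → ℝ} {n n' : G} {F F' : G → ℝ}
    (H : Adm c S h n F) (H' : Adm c S h n' F') :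
    Adm c S h (n + n') (fun x => F' x + F (x + n')) := by
  obtain ⟨h1, h3⟩ := H
  obtain ⟨h1', h3'⟩ := H'
  refine ⟨fun x => ?_, fun s hs x => ?_⟩
  · simp only
    rw [AddCircle.coe_add, h1, h1']
    have : x + n' + n = x + (n + n') := by abel
    rw [this]
    abel
  · have e1 := h3 s hs (x + n')
    have e2 := h3' s hs x
    have a1 : x + (n + n') = x + n' + n := by abel
    have a2 : x + n' + s = x + s + n' := by abel
    simp only
    rw [a1]
    rw [a2] at e1
    linarith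

lemma adm_neg {c : G → UnitAddCircle} {S : Set G} {h : G → G → ℝ} {n : G} {F : G → ℝ}
    (H : Adm c S h n F) : Adm c S h (-n) (fun x => - F (x - n)) := by
  obtain ⟨h1, h3⟩ := H
  refine ⟨fun x => ?_, fun s hs x => ?_⟩
  · simp only
    rw [AddCircle.coe_neg, h1]
    have : x - n + n = x := by abel
    rw [this]
    have : x + -n = x - n := by abel
    rw [this]
    abel
  · have e1 := h3 s hs (x - n)
    have a1 : x - n + n = x := by abel
    have a2 : x - n + s = x + s - n := by abel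
    have a3 : x + -n = x - n := by abel
    rw [a1, a2] at e1
    simp only
    rw [a3]
    linarith

/-- two admissible lifts differ by a constant integer on the subgroup generated by `S` -/
lemma adm_unique {c : G → UnitAddCircle} {S : Set G} {h : G → G → ℝ} {n : G} {F F' : G → ℝ}
    (H : Adm c S h n F) (H' : Adm c S h n F') :
    ∃ m : ℤ, ∀ p ∈ AddSubgroup.closure S, F p = F' p + m := by
  have hper : ∀ p ∈ AddSubgroup.closure S, ∀ x, F (x + p) - F' (x + p) = F x - F' x := by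
    intro p hp
    induction hp using AddSubgroup.closure_induction with
    | mem t ht =>
      intro x
      have e1 := H.2 t ht x
      have e2 := H'.2 t ht x
      linarith
    | zero => intro x; simp
    | add y z _ _ hy hz =>
      intro x
      rw [← add_assoc, hz, hy]
    | neg y _ hy =>
      intro x
      have := hy (x + -y)
      rw [← this]
      have e : x + -y + y = x := by abel
      rw [e]
  obtain ⟨m, hm⟩ : ∃ m : ℤ, F 0 - F' 0 = m := by
    apply int_of_coe_eq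
    rw [H.1, H'.1]
  refine ⟨m, fun p hp => ?_⟩
  have := hper p hp 0
  rw [zero_add, hm] at this
  linarith

/-- If `c : G → ℝ/ℤ` moves by at least `δ > 1/4` along every `s ∈ S`, then a character does so. -/
lemma circular [Finite G] (S : Set G) (δ : ℝ) (hδ : 1 / 4 < δ) (c : G → UnitAddCircle)
    (hc : ∀ x : G, ∀ s ∈ S, δ ≤ ‖c (x + s) - c x‖) :
    ∃ χ : G →+ UnitAddCircle, ∀ s ∈ S, δ ≤ ‖χ s‖ := by
  classical
  -- the lifts
  choose rep hrep using exists_rep
  let h : G → G → ℝ := fun s x => rep (c (x + s) - c x)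
  have hcoe : ∀ s x, ((h s x : ℝ) : UnitAddCircle) = c (x + s) - c x := fun s x => (hrep _).1
  have hlow : ∀ s ∈ S, ∀ x, δ ≤ h s x ∧ h s x ≤ 1 - δ := by
    intro s hs x
    have h1 := hc x s hs
    rw [(hrep _).2.2.2] at h1
    have h2 := le_min_iff.1 h1
    exact ⟨h2.1, by linarith [h2.2]⟩
  have hcoc : ∀ s ∈ S, ∀ t ∈ S, ∀ x : G, h t x + h s (x + t) = h s x + h t (x + s) := by
    intro s hs t ht x
    have e : ((h t x + h s (x + t) : ℝ) : UnitAddCircle) = ((h s x + h t (x + s) : ℝ)) := by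
      rw [AddCircle.coe_add, AddCircle.coe_add, hcoe, hcoe, hcoe, hcoe]
      have : x + t + s = x + s + t := by abel
      rw [this]
      abel
    obtain ⟨m, hm⟩ := int_of_coe_eq e
    have b1 := hlow t ht x
    have b2 := hlow s hs (x + t)
    have b3 := hlow s hs x
    have b4 := hlow t ht (x + s)
    have hm1 : ((m : ℤ) : ℝ) < 1 := by rw [← hm]; linarith
    have hm2 : (-1 : ℝ) < ((m : ℤ) : ℝ) := by rw [← hm]; linarith
    have hm3 : m < 1 := by exact_mod_cast hm1
    have hm4 : -1 < m := by exact_mod_cast hm2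
    have hm5 : m = 0 := by omega
    rw [hm5] at hm
    push_cast at hm
    linarith
  have hadm : ∀ s ∈ S, Adm c S h s (h s) := by
    intro s hs
    exact ⟨hcoe s, fun t ht x => hcoc t ht s hs x⟩
  -- the subgroup generated by `S`
  set K : AddSubgroup G := AddSubgroup.closure S with hK
  have hall : ∀ n ∈ K, ∃ F, Adm c S h n F := by
    intro n hn
    induction hn using AddSubgroup.closure_induction with
    | mem x hx => exact ⟨_, hadm x hx⟩
    | zero => exact ⟨_, adm_zero c S h⟩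
    | add x y _ _ hx hy =>
      obtain ⟨F, hF⟩ := hx
      obtain ⟨G, hG⟩ := hy
      exact ⟨_, adm_add hF hG⟩
    | neg x _ hx =>
      obtain ⟨F, hF⟩ := hx
      exact ⟨_, adm_neg hF⟩
  choose F hF using fun n : K => hall n n.2
  have : Fintype K := Fintype.ofFinite K
  -- the average over `K`
  let A : (G → ℝ) → ℝ := fun f => (∑ x : K, f x) / (Fintype.card K : ℝ)
  have hcard : (0 : ℝ) < (Fintype.card K : ℝ) := by exact_mod_cast Fintype.card_pos
  have hA_add : ∀ f g : G → ℝ, A (fun x => f x + g x) = A f + A g := by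
    intro f g
    simp only [A]
    rw [Finset.sum_add_distrib, add_div]
  have hA_shift : ∀ (f : G → ℝ) (n : K), A (fun x => f (x + n)) = A f := by
    intro f n
    simp only [A]
    congr 1
    exact Fintype.sum_equiv (Equiv.addRight n) _ _ (fun x => by simp)
  have hA_eq : ∀ (n : K) (F1 F2 : G → ℝ), Adm c S h n F1 → Adm c S h n F2 →
      ((A F1 : ℝ) : UnitAddCircle) = ((A F2 : ℝ) : UnitAddCircle) := by
    intro n F1 F2 h1 h2
    obtain ⟨m, hm⟩ := adm_unique h1 h2
    have e : A F1 = A F2 + m := by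
      simp only [A]
      rw [div_add' _ _ _ hcard.ne']
      congr 1
      have : (m : ℝ) * (Fintype.card K : ℝ) = ∑ x : K, (m : ℝ) := by
        simp [mul_comm]
      rw [this, ← Finset.sum_add_distrib]
      exact Finset.sum_congr rfl fun x _ => hm x x.2
    rw [e, AddCircle.coe_add, coe_int, add_zero]
  let φ : K →+ UnitAddCircle := AddMonoidHom.mk' (fun n => ((A (F n) : ℝ) : UnitAddCircle)) (by
    intro a b
    rw [hA_eq (a + b) (F (a + b)) (fun x => F b x + F a (x + b)) (hF (a + b))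
      (adm_add (hF a) (hF b)), hA_add (F b) (fun x => F a (x + b)), hA_shift (F a) b,
      AddCircle.coe_add, add_comm])
  obtain ⟨χ, hχ⟩ := (Module.Baer.of_divisible (UnitAddCircle)).extension_property_addMonoidHom
    K.subtype K.subtype_injective φ
  refine ⟨χ, fun s hs => ?_⟩
  have hsK : s ∈ K := AddSubgroup.subset_closure hs
  have e1 : χ s = ((A (h s) : ℝ) : UnitAddCircle) := by
    have : χ s = φ ⟨s, hsK⟩ := by
      rw [← hχ]
      rfl
    rw [this]
    exact hA_eq ⟨s, hsK⟩ _ _ (hF _) (hadm s hs)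
  rw [e1]
  apply norm_ge (by linarith)
  · simp only [A]
    rw [le_div_iff₀ hcard]
    calc δ * (Fintype.card K : ℝ) = ∑ x : K, δ := by simp [mul_comm]
      _ ≤ _ := Finset.sum_le_sum fun x _ => (hlow s hs x).1
  · simp only [A]
    rw [div_le_iff₀ hcard]
    calc ∑ x : K, h s x ≤ ∑ x : K, (1 - δ) := Finset.sum_le_sum fun x _ => (hlow s hs x).2
      _ = (1 - δ) * (Fintype.card K : ℝ) := by simp; ring

lemma third_lt (i j : ℕ) (hij : i < j) (hj : j < 3) :
    1 / 3 ≤ ‖((j / 3 : ℝ) : UnitAddCircle) - ((i / 3 : ℝ) : UnitAddCircle)‖ := by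
  rw [← AddCircle.coe_sub]
  have h1 : (i : ℝ) + 1 ≤ j := by exact_mod_cast hij
  have h2 : (j : ℝ) ≤ 2 := by
    have : j ≤ 2 := by omega
    exact_mod_cast this
  have h3 : (0 : ℝ) ≤ i := Nat.cast_nonneg i
  exact norm_ge (by norm_num) (by linarith) (by linarith)

/-- distinct points of `{0, 1/3, 2/3}` are at distance at least `1/3` -/
lemma third (i j : Fin 3) (hij : i ≠ j) :
    1 / 3 ≤ ‖(((i : ℕ) / 3 : ℝ) : UnitAddCircle) - (((j : ℕ) / 3 : ℝ) : UnitAddCircle)‖ := by
  rcases lt_or_gt_of_ne (fun h => hij (Fin.ext h) : (i : ℕ) ≠ (j : ℕ)) with h | h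
  · rw [norm_sub_rev]
    exact third_lt i j h j.2
  · exact third_lt j i h i.2

lemma colouring_of_char (S : Set G) (χ : G →+ UnitAddCircle) (hχ : ∀ s ∈ S, 1 / 3 ≤ ‖χ s‖) :
    ∃ f : G → Fin 3, ∀ x : G, ∀ s ∈ S, f (x + s) ≠ f x := by
  choose rep hrep using exists_rep
  have hfl : ∀ y : UnitAddCircle, ⌊3 * rep y⌋₊ < 3 := by
    intro y
    have h1 := (hrep y).2.1
    have h2 := (hrep y).2.2.1
    rw [Nat.floor_lt (by positivity)]
    push_cast
    linarith
  refine ⟨fun x => ⟨⌊3 * rep (χ x)⌋₊, hfl _⟩, fun x s hs heq => ?_⟩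
  have e : ⌊3 * rep (χ (x + s))⌋₊ = ⌊3 * rep (χ x)⌋₊ := congrArg Fin.val heq
  set u := rep (χ (x + s)) with hu
  set v := rep (χ x) with hv
  have u0 : 0 ≤ u := (hrep _).2.1
  have v0 : 0 ≤ v := (hrep _).2.1
  have u1 := Nat.floor_le (show 0 ≤ 3 * u by positivity)
  have u2 := Nat.lt_floor_add_one (3 * u)
  have v1 := Nat.floor_le (show 0 ≤ 3 * v by positivity)
  have v2 := Nat.lt_floor_add_one (3 * v)
  rw [e] at u1 u2
  have hd : |u - v| < 1 / 3 := by
    rw [abs_lt]
    constructor <;> linarith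
  have hs' := hχ s hs
  have hsub : χ s = ((u - v : ℝ) : UnitAddCircle) := by
    rw [AddCircle.coe_sub, hu, hv, (hrep _).1, (hrep _).1, map_add]
    abel
  rw [hsub, UnitAddCircle.norm_eq] at hs'
  have h3 : |u - v - round (u - v)| ≤ |u - v - ((0 : ℤ) : ℝ)| := round_le (u - v) 0
  simp only [Int.cast_zero, sub_zero] at h3
  linarith

/-- the equivalence for 3-colourings as maps -/
lemma three_iff [Finite G] (S : Set G) :
    (∃ f : G → Fin 3, ∀ x : G, ∀ s ∈ S, f (x + s) ≠ f x) ↔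
      ∃ χ : G →+ UnitAddCircle, ∀ s ∈ S, 1 / 3 ≤ ‖χ s‖ := by
  constructor
  · rintro ⟨f, hf⟩
    exact circular S (1 / 3) (by norm_num) (fun x => (((f x : ℕ) / 3 : ℝ) : UnitAddCircle))
      (fun x s hs => third _ _ (hf x s hs))
  · rintro ⟨χ, hχ⟩
    exact colouring_of_char S χ hχ

lemma colorable_iff (S : Set G) (h0 : (0 : G) ∉ S) :
    (SimpleGraph.addCayley S).Colorable 3 ↔
      ∃ f : G → Fin 3, ∀ x : G, ∀ s ∈ S, f (x + s) ≠ f x := by
  constructor
  · rintro ⟨C⟩
    refine ⟨C, fun x s hs => ?_⟩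
    apply C.valid
    rw [SimpleGraph.addCayley_adj']
    refine ⟨?_, s, hs, Or.inr rfl⟩
    intro h
    apply h0
    have : s = 0 := by simpa using h
    rwa [this] at hs
  · rintro ⟨f, hf⟩
    refine ⟨SimpleGraph.Coloring.mk f ?_⟩
    intro u v huv
    rw [SimpleGraph.addCayley_adj'] at huv
    obtain ⟨-, g, hg, h | h⟩ := huv
    · rw [← h]
      exact (hf u g hg).symm
    · rw [h]
      exact hf v g hg

/-- The integer `∑ i, a_i s_i N / n_i` reduced modulo `N = ∏ n_i`. -/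
def pairing {k : ℕ} (n : Fin k → ℕ) (a s : ∀ i, ZMod (n i)) : ℕ :=
  (∑ i, (a i).val * (s i).val * ((∏ j, n j) / n i)) % (∏ j, n j)

lemma prod_pos {k : ℕ} (n : Fin k → ℕ) (hn : ∀ i, 0 < n i) : 0 < ∏ j, n j :=
  Finset.prod_pos fun i _ => hn i

/-- the value of the character attached to `a` -/
lemma norm_pairing {k : ℕ} (n : Fin k → ℕ) (hn : ∀ i, 0 < n i) (a s : ∀ i, ZMod (n i)) :
    1 / 3 ≤ ‖((∑ i, ((a i).val * (s i).val : ℝ) / n i : ℝ) : UnitAddCircle)‖ ↔
      (∏ j, n j) ≤ 3 * pairing n a s ∧ 3 * pairing n a s ≤ 2 * ∏ j, n j := by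
  set N := ∏ j, n j with hN
  have hNpos : 0 < N := prod_pos n hn
  have hNr : (0 : ℝ) < N := by exact_mod_cast hNpos
  have hdvd : ∀ i, n i ∣ N := fun i => Finset.dvd_prod_of_mem n (Finset.mem_univ i)
  set T := ∑ i, (a i).val * (s i).val * (N / n i) with hT
  have e1 : (∑ i, ((a i).val * (s i).val : ℝ) / n i : ℝ) = (T : ℝ) / N := by
    rw [hT, Nat.cast_sum, Finset.sum_div]
    refine Finset.sum_congr rfl fun i _ => ?_
    have hi : (0 : ℝ) < n i := by exact_mod_cast hn i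
    rw [Nat.cast_mul, Nat.cast_div (hdvd i) hi.ne']
    push_cast
    field_simp
  have e2 : Int.fract ((T : ℝ) / N) = ((T % N : ℕ) : ℝ) / N := by
    rw [Int.fract_eq_iff]
    obtain ⟨q, hq⟩ : ∃ q : ℕ, T / N = q := ⟨_, rfl⟩
    refine ⟨by positivity, ?_, (q : ℤ), ?_⟩
    · rw [div_lt_one hNr]
      exact_mod_cast Nat.mod_lt T hNpos
    · have h3 := Nat.div_add_mod T N
      rw [hq] at h3
      have h2 : (T : ℝ) = N * (q : ℝ) + ((T % N : ℕ) : ℝ) := by
        exact_mod_cast h3.symm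
      rw [h2, ← sub_div]
      push_cast
      rw [div_eq_iff hNr.ne']
      ring
  rw [e1, UnitAddCircle.norm_eq, abs_sub_round_eq_min, e2, le_min_iff]
  change _ ↔ N ≤ 3 * (T % N) ∧ 3 * (T % N) ≤ 2 * N
  refine and_congr ?_ ?_
  · rw [div_le_div_iff₀ (by norm_num) hNr]
    constructor
    · intro h
      have : (N : ℝ) ≤ ((3 * (T % N) : ℕ) : ℝ) := by push_cast; linarith
      exact_mod_cast this
    · intro h
      have : (N : ℝ) ≤ ((3 * (T % N) : ℕ) : ℝ) := by exact_mod_cast h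
      push_cast at this
      linarith
  · rw [le_sub_iff_add_le, ← le_sub_iff_add_le', div_le_iff₀ hNr]
    constructor
    · intro h
      have : ((3 * (T % N) : ℕ) : ℝ) ≤ ((2 * N : ℕ) : ℝ) := by push_cast; linarith
      exact_mod_cast this
    · intro h
      have : ((3 * (T % N) : ℕ) : ℝ) ≤ ((2 * N : ℕ) : ℝ) := by exact_mod_cast h
      push_cast at this
      linarith

/-- every character of `∏ ℤ/n_i` has the form `x ↦ ∑ a_i x_i / n_i` -/
lemma char_form {k : ℕ} (n : Fin k → ℕ) (hn : ∀ i, 0 < n i)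
    (χ : (∀ i, ZMod (n i)) →+ UnitAddCircle) :
    ∃ a : ∀ i, ZMod (n i), ∀ x, χ x =
      ((∑ i, ((a i).val * (x i).val : ℝ) / n i : ℝ) : UnitAddCircle) := by
  classical
  have : ∀ i, NeZero (n i) := fun i => ⟨(hn i).ne'⟩
  have h1 : ∀ i, ∃ m < n i, ((m / n i : ℝ) : UnitAddCircle) = χ (Pi.single i 1) := by
    intro i
    have h0 : n i • χ (Pi.single i 1) = 0 := by
      rw [← map_nsmul, ← Pi.single_smul]
      simp
    obtain ⟨m, hm, hm2⟩ := (AddCircle.nsmul_eq_zero_iff (hn i)).1 h0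
    exact ⟨m, hm, by rw [← hm2]; simp⟩
  choose m hm hm2 using h1
  refine ⟨fun i => (m i : ZMod (n i)), fun x => ?_⟩
  have hx : x = ∑ i, (x i).val • (Pi.single i 1 : ∀ i, ZMod (n i)) := by
    funext j
    rw [Finset.sum_apply, Finset.sum_eq_single j]
    · simp
    · intro b _ hb
      simp [hb.symm]
    · simp
  conv_lhs => rw [hx]
  rw [map_sum]
  have e : ((∑ i, ((((m i : ℕ) : ZMod (n i))).val * (x i).val : ℝ) / n i : ℝ) : UnitAddCircle) =
      ∑ i, (((((m i : ℕ) : ZMod (n i))).val * (x i).val / n i : ℝ) : UnitAddCircle) := by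
    exact map_sum (QuotientAddGroup.mk' (AddSubgroup.zmultiples (1 : ℝ))) _ _
  rw [e]
  refine Finset.sum_congr rfl fun i _ => ?_
  rw [map_nsmul, ← hm2 i, ZMod.val_natCast, Nat.mod_eq_of_lt (hm i), ← AddCircle.coe_nsmul]
  congr 1
  rw [nsmul_eq_mul]
  ring

/-- `x ↦ ∑ a_i x_i / n_i` is a character -/
lemma char_of {k : ℕ} (n : Fin k → ℕ) (hn : ∀ i, 0 < n i) (a : ∀ i, ZMod (n i)) :
    ∃ χ : (∀ i, ZMod (n i)) →+ UnitAddCircle, ∀ x, χ x =
      ((∑ i, ((a i).val * (x i).val : ℝ) / n i : ℝ) : UnitAddCircle) := by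
  classical
  have : ∀ i, NeZero (n i) := fun i => ⟨(hn i).ne'⟩
  refine ⟨AddMonoidHom.mk' (fun x => ((∑ i, ((a i).val * (x i).val : ℝ) / n i : ℝ) :
    UnitAddCircle)) ?_, fun x => rfl⟩
  intro x y
  have e : ∀ x : (∀ i, ZMod (n i)), ((∑ i, ((a i).val * (x i).val : ℝ) / n i : ℝ) : UnitAddCircle) =
      ∑ i, (((a i).val * (x i).val / n i : ℝ) : UnitAddCircle) := by
    intro x
    exact map_sum (QuotientAddGroup.mk' (AddSubgroup.zmultiples (1 : ℝ))) _ _
  rw [e, e, e, ← Finset.sum_add_distrib]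
  refine Finset.sum_congr rfl fun i _ => ?_
  have hi : (0 : ℝ) < n i := by exact_mod_cast hn i
  rw [← AddCircle.coe_add, ← sub_eq_zero, ← AddCircle.coe_sub, AddCircle.coe_eq_zero_iff]
  have h1 := ZMod.val_add (x i) (y i)
  have h2 := Nat.div_add_mod ((x i).val + (y i).val) (n i)
  rw [← h1] at h2
  obtain ⟨q, hq⟩ : ∃ q : ℕ, ((x i).val + (y i).val) / n i = q := ⟨_, rfl⟩
  rw [hq] at h2
  have h3 : ((x i).val + (y i).val : ℝ) = n i * (q : ℝ) + (((x + y) i).val : ℝ) := by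
    exact_mod_cast h2.symm
  refine ⟨-(((a i).val : ℤ) * (q : ℤ)), ?_⟩
  have h4 : (((x + y) i).val : ℝ) = ((x i).val + (y i).val : ℝ) - n i * (q : ℝ) := by linarith
  rw [h4, zsmul_eq_mul, mul_one, Int.cast_neg, Int.cast_mul, Int.cast_natCast, Int.cast_natCast]
  field_simp
  ring

/-- the explicit criterion -/
lemma explicit {k : ℕ} (n : Fin k → ℕ) (hn : ∀ i, 0 < n i) (S : Set (∀ i, ZMod (n i)))
    (h0 : 0 ∉ S) :
    (SimpleGraph.addCayley S).Colorable 3 ↔
      ∃ a : ∀ i, ZMod (n i), ∀ s ∈ S,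
        (∏ j, n j) ≤ 3 * pairing n a s ∧ 3 * pairing n a s ≤ 2 * ∏ j, n j := by
  have : ∀ i, NeZero (n i) := fun i => ⟨(hn i).ne'⟩
  rw [colorable_iff S h0, three_iff]
  constructor
  · rintro ⟨χ, hχ⟩
    obtain ⟨a, ha⟩ := char_form n hn χ
    refine ⟨a, fun s hs => ?_⟩
    rw [← norm_pairing n hn, ← ha]
    exact hχ s hs
  · rintro ⟨a, ha⟩
    obtain ⟨χ, hχ⟩ := char_of n hn a
    refine ⟨χ, fun s hs => ?_⟩
    rw [hχ, norm_pairing n hn]
    exact ha s hs

lemma pairing_add {k : ℕ} (n : Fin k → ℕ) (hn : ∀ i, 0 < n i) (a x y : ∀ i, ZMod (n i)) :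
    pairing n a (x + y) = (pairing n a x + pairing n a y) % ∏ j, n j := by
  have : ∀ i, NeZero (n i) := fun i => ⟨(hn i).ne'⟩
  unfold pairing
  set N := ∏ j, n j with hN
  rw [← Nat.add_mod, ← Finset.sum_add_distrib]
  have hterm : ∀ i ∈ (Finset.univ : Finset (Fin k)),
      ((a i).val * ((x + y) i).val * (N / n i)) ≡
        ((a i).val * (x i).val * (N / n i) + (a i).val * (y i).val * (N / n i)) [MOD N] := by
    intro i _
    have hdvd : n i ∣ N := Finset.dvd_prod_of_mem n (Finset.mem_univ i)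
    have e1 : ((x + y) i).val ≡ (x i).val + (y i).val [MOD n i] := by
      have h1 := ZMod.val_add (x i) (y i)
      change ((x i + y i).val) ≡ _ [MOD n i]
      rw [h1]
      exact Nat.mod_modEq _ _
    have e2 := (e1.mul_left ((a i).val)).mul_right' (N / n i)
    rw [Nat.mul_div_cancel' hdvd] at e2
    have e3 : (a i).val * ((x i).val + (y i).val) * (N / n i) =
      (a i).val * (x i).val * (N / n i) + (a i).val * (y i).val * (N / n i) := by ring
    rw [e3] at e2
    exact e2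
  clear_value N
  have key : ∀ (s : Finset (Fin k)) (f g : Fin k → ℕ), (∀ i ∈ s, f i ≡ g i [MOD N]) →
      (∑ i ∈ s, f i) ≡ (∑ i ∈ s, g i) [MOD N] := by
    intro s f g
    induction s using Finset.induction_on with
    | empty => intro _; exact Nat.ModEq.refl _
    | insert b t hb ih =>
      intro h
      rw [Finset.sum_insert hb, Finset.sum_insert hb]
      exact (h b (Finset.mem_insert_self b t)).add
        (ih fun i hi => h i (Finset.mem_insert_of_mem hi))
  exact key _ _ _ hterm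

lemma pairing_lt {k : ℕ} (n : Fin k → ℕ) (hn : ∀ i, 0 < n i) (a x : ∀ i, ZMod (n i)) :
    pairing n a x < ∏ j, n j := Nat.mod_lt _ (prod_pos n hn)

/-- the explicit colouring attached to a successful `a` -/
lemma explicit_colouring {k : ℕ} (n : Fin k → ℕ) (hn : ∀ i, 0 < n i)
    (a s : ∀ i, ZMod (n i))
    (h1 : (∏ j, n j) ≤ 3 * pairing n a s) (h2 : 3 * pairing n a s ≤ 2 * ∏ j, n j)
    (x : ∀ i, ZMod (n i)) :
    3 * pairing n a (x + s) / (∏ j, n j) ≠ 3 * pairing n a x / (∏ j, n j) := by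
  have hN := prod_pos n hn
  have hadd := pairing_add n hn a x s
  have l1 := pairing_lt n hn a x
  have l2 := pairing_lt n hn a s
  have l3 := pairing_lt n hn a (x + s)
  generalize pairing n a (x + s) = q at *
  generalize pairing n a x = p at *
  generalize pairing n a s = t at *
  generalize (∏ j, n j) = N at *
  have hq : q = p + t ∨ q + N = p + t := by
    rcases lt_or_ge (p + t) N with h | h
    · left
      rw [hadd, Nat.mod_eq_of_lt h]
    · right
      have h5 : p + t = (p + t - N) + N := by omega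
      rw [hadd, h5, Nat.add_mod_right, Nat.mod_eq_of_lt (by omega)]
  intro heq
  have a1 := Nat.div_mul_le_self (3 * q) N
  have a2 := Nat.lt_div_mul_add (a := 3 * q) hN
  have a3 := Nat.div_mul_le_self (3 * p) N
  have a4 := Nat.lt_div_mul_add (a := 3 * p) hN
  rw [heq] at a1 a2
  omega

lemma explicit_lt {k : ℕ} (n : Fin k → ℕ) (hn : ∀ i, 0 < n i) (a x : ∀ i, ZMod (n i)) :
    3 * pairing n a x / (∏ j, n j) < 3 := by
  rw [Nat.div_lt_iff_lt_mul (prod_pos n hn)]
  have := pairing_lt n hn a x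
  omega

/-- **3-colourability of Abelian Cayley graphs.**
(1) For a finite abelian group `G`, `S ⊆ G` and `δ > 1/4`: a map `c : G → ℝ/ℤ` with
`‖c (x + s) - c x‖ ≥ δ` for all `x ∈ G`, `s ∈ S` exists iff a character `χ : G → ℝ/ℤ` has
`‖χ s‖ ≥ δ` for all `s ∈ S`.
(2) `Cay(G, S)` is 3-colourable iff a character `χ` has `‖χ s‖ ≥ 1/3` for all `s ∈ S`.
(3) For `G = ∏ ℤ/n_i`, `N = ∏ n_i` and `⟨a, s⟩ = (∑ a_i s_i N/n_i) mod N`: `Cay(G, S)` is
3-colourable iff some `a ∈ G` has `N ≤ 3 ⟨a, s⟩ ≤ 2 N` for all `s ∈ S`, and for any such `a` the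
map `x ↦ ⌊3 ⟨a, x⟩ / N⌋ ∈ {0, 1, 2}` is a proper 3-colouring. -/
theorem result :
    (∀ (G : Type) [AddCommGroup G] [Finite G] (S : Set G),
      (∀ δ : ℝ, 1 / 4 < δ →
        ((∃ c : G → UnitAddCircle, ∀ x, ∀ s ∈ S, δ ≤ ‖c (x + s) - c x‖) ↔
          ∃ χ : G →+ UnitAddCircle, ∀ s ∈ S, δ ≤ ‖χ s‖)) ∧
      ((0 : G) ∉ S → ((SimpleGraph.addCayley S).Colorable 3 ↔
        ∃ χ : G →+ UnitAddCircle, ∀ s ∈ S, 1 / 3 ≤ ‖χ s‖))) ∧
    (∀ (k : ℕ) (n : Fin k → ℕ), (∀ i, 0 < n i) → ∀ (S : Set (∀ i, ZMod (n i))), 0 ∉ S →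
      ((SimpleGraph.addCayley S).Colorable 3 ↔
        ∃ a : ∀ i, ZMod (n i), ∀ s ∈ S,
          (∏ j, n j) ≤ 3 * pairing n a s ∧ 3 * pairing n a s ≤ 2 * ∏ j, n j) ∧
      (∀ a : ∀ i, ZMod (n i), (∀ s ∈ S,
          (∏ j, n j) ≤ 3 * pairing n a s ∧ 3 * pairing n a s ≤ 2 * ∏ j, n j) →
        ∃ C : (SimpleGraph.addCayley S).Coloring (Fin 3), ∀ x,
          (C x : ℕ) = 3 * pairing n a x / (∏ j, n j))) := by
  refine ⟨?_, ?_⟩
  · intro G _ _ S
    refine ⟨fun δ hδ => ⟨?_, ?_⟩, fun h0 => ?_⟩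
    · rintro ⟨c, hc⟩
      exact circular S δ hδ c hc
    · rintro ⟨χ, hχ⟩
      refine ⟨χ, fun x s hs => ?_⟩
      rw [map_add, add_sub_cancel_left]
      exact hχ s hs
    · rw [colorable_iff S h0, three_iff]
  · intro k n hn S h0
    refine ⟨explicit n hn S h0, fun a ha => ?_⟩
    refine ⟨SimpleGraph.Coloring.mk
      (fun x => (⟨3 * pairing n a x / (∏ j, n j), explicit_lt n hn a x⟩ : Fin 3)) ?_,
      fun x => rfl⟩
    intro u v huv heq
    have he : 3 * pairing n a u / (∏ j, n j) = 3 * pairing n a v / (∏ j, n j) :=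
      congrArg Fin.val heq
    rw [SimpleGraph.addCayley_adj'] at huv
    obtain ⟨-, g, hg, h | h⟩ := huv
    · rw [← h] at he
      exact explicit_colouring n hn a g (ha g hg).1 (ha g hg).2 u he.symm
    · rw [h] at he
      exact explicit_colouring n hn a g (ha g hg).1 (ha g hg).2 v he

end Pool.Agent.Results.MP_7fcd00_lc.ThreeColour
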